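import Pool.Agent.H608.Tk.AE
import Pool.Agent.H608.Tk.Thin
import Pool.Agent.H608.Tk.Kummer
import Pool.Agent.H608.Tw.Rank
import Pool.Graph.R_seed8.H340R2.LW
import Mathlib

/-!
# The conjecture of Lang and Rohrlich for Kummer's series with changed primes

Let `B (y) = 1 / 2 - {y}` (and `0` at the integers). By Kummer's formula
`log Γ (x) = (1 / 2 - x) (γ + log 2) + (1 - x) log π - log (sin π x) / 2 + (1 / π) ∑ (log n / n) sin (2 π n x)`, `0 < x < 1`.
Let `n ↦ n_E` be the completely multiplicative function with `p_E = f (p)` for the primes `p` of a set `E`, where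
`p / 2 ≤ f (p) ≤ 2 p`, `f (p) ≠ p` (for instance `f (p) = p + 1`), and `p_E = p` for the other primes, and let `GamE` be the function
obtained by writing `log n_E` for `log n` in this series, so that `GamE (x) = Γ (x) exp (Lam (x))` with
`Lam (x) = (1 / π) ∑ (log n_E - log n) sin (2 π n x) / n = ∑_{p ∈ E} log (f (p) / p) ∑_{k ≥ 1} B (p ^ k x) / p ^ k`. It satisfies the
translation and the reflection formula of the gamma function, and the multiplication formula with `N_E ^ (1 / 2 - x)` for
`N ^ (1 / 2 - x)`. Let `A` be any set of primes which contains infinitely many elements of each reduced residue class and for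
which the sum of the reciprocals converges; there are such sets as thin as one likes. We prove that for almost all subsets
`E` of `A` (fair coin tossing) all algebraic relations, over any given countable ring of real numbers, between the values
of `GamE` at the rational numbers come from the monomial relations between values of the gamma function predicted by Lang
and Rohrlich. In particular the field generated by `π` and all `GamE (a / q)`, `1 ≤ a < q`, has transcendence degree at
least `1 + φ(q) / 2` for all `q > 2`, and for the prime powers `q` this holds for the numerators prime to `q`.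
-/

set_option autoImplicit false

namespace Pool.Agent.Results.MP_274814_nt.AlmostAllChangedPrimes

open Finset Filter Topology
open Pool.Agent.H608.Tw (B B_saw exists_cols SS_one_ne_zero Sparse Rich rich_primes)
open MeasureTheory
open Pool.Agent.H608.Tk
open Pool.Agent.H916R2 (SS saw SS_unit exists_SS_ne_zero)

lemma algInd_of {S : Subalgebra ℚ ℝ} {N : ℕ} {x : Fin N → ℝ}
    (h : ∀ (t : ℕ) (α : Fin t → Fin N → ℤ) (c : Fin t → ℝ), Function.Injective α → (∀ j, c j ∈ S) → c ≠ 0 →
      ∑ j, c j * ∏ i, x i ^ α j i ≠ 0) : AlgebraicIndependent S x := by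
  rw [algebraicIndependent_iff]
  intro P hP
  by_contra hne
  obtain ⟨e⟩ : Nonempty (P.support ≃ Fin P.support.card) := ⟨P.support.equivFin⟩
  apply h P.support.card (fun j i => ((e.symm j).1 i : ℤ)) (fun j => ((P.coeff (e.symm j).1 : S) : ℝ)) ?_
    (fun j => (P.coeff _).2) ?_ ?_
  · intro j k hjk
    apply e.symm.injective
    apply Subtype.ext
    ext i
    have h1 := congrFun hjk i
    simp only [Nat.cast_inj] at h1
    exact h1
  · intro h0
    obtain ⟨s, hs⟩ := MvPolynomial.support_nonempty.2 hne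
    have h1 := congrFun h0 (e ⟨s, hs⟩)
    simp only [Equiv.symm_apply_apply, Pi.zero_apply] at h1
    exact MvPolynomial.mem_support_iff.1 hs (Subtype.ext h1)
  · rw [MvPolynomial.aeval_def, MvPolynomial.eval₂_eq'] at hP
    rw [← hP, ← Finset.sum_coe_sort P.support, ← Equiv.sum_comp e.symm]
    refine sum_congr rfl fun j _ => ?_
    simp only [zpow_natCast]
    rfl

lemma coprime_of_unit {q : ℕ} [NeZero q] (t : (ZMod q)ˣ) : ((t : ZMod q).val).Coprime q := ZMod.val_coe_unit_coprime t

/-- the transcendence degree -/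
lemma trdeg_ge {q : ℕ} [NeZero q] {N : ℕ} {x : Fin N → ℝ} (h : AlgebraicIndependent
    (Algebra.adjoin ℚ (Set.range fun _ : Unit => Real.pi)) x) {T : Set ℝ} (hT : ∀ k, x k ∈ T) :
    ((1 + N : ℕ) : Cardinal) ≤ Algebra.trdeg ℚ (IntermediateField.adjoin ℚ ({Real.pi} ∪ T)) := by
  have h0 : AlgebraicIndependent ℚ (fun _ : Unit => Real.pi) := by
    rw [algebraicIndependent_unique_type_iff]
    exact Pool.Agent.H340R2.LW.transcendental_pi
  have h1 := h0.sumElim h
  obtain ⟨F, hF⟩ : ∃ F, F = IntermediateField.adjoin ℚ ({Real.pi} ∪ T) := ⟨_, rfl⟩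
  rw [← hF]
  have hmem : ∀ o, Sum.elim x (fun _ : Unit => Real.pi) o ∈ F := by
    intro o
    rw [hF]
    apply IntermediateField.subset_adjoin
    rcases o with k | _
    · exact Or.inr (hT k)
    · exact Or.inl rfl
  have h3 : AlgebraicIndependent ℚ (fun o => (⟨Sum.elim x (fun _ : Unit => Real.pi) o, hmem o⟩ : F)) := by
    apply AlgebraicIndependent.of_comp (IntermediateField.val _)
    exact h1
  have h4 := h3.cardinalMk_le_trdeg
  refine le_trans (le_of_eq ?_) h4
  rw [Cardinal.mk_fintype, Fintype.card_sum, Fintype.card_fin, Fintype.card_unit, add_comm]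

theorem result :
    -- there are thin sets of primes
    Rich {p | p.Prime} ∧ (∀ A : Set ℕ, (∀ p ∈ A, p.Prime) → Rich A → ∀ ω : ℕ → ℕ, Tendsto ω atTop atTop → ∀ δ : ℝ, 0 < δ →
      ∃ A' ⊆ A, Rich A' ∧ Sparse A' ∧ recip A' ≤ δ ∧ ∀ k, ({p | p ∈ A' ∧ p ≤ k}).ncard ≤ ω k) ∧
    ∀ (A : Set ℕ) (g : ℕ → ℝ), (∀ p ∈ A, p.Prime ∧ (p : ℝ) / 2 ≤ g p ∧ g p ≤ 2 * p ∧ g p ≠ p) → Rich A → Sparse A →
      -- for all subsets: Kummer's series, the functional equations, and their consequences
      (∀ E ⊆ A, (∀ x, |Lam g E x| ≤ recip A) ∧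
        (∀ x : ℝ, Tendsto (fun N : ℕ => 1 / Real.pi * ∑ n ∈ range N, (Real.log (NE g E (n + 1)) - Real.log ((n + 1 : ℕ) : ℝ)) *
          (Real.sin (2 * Real.pi * (n + 1) * x) / (n + 1))) atTop (𝓝 (Lam g E x))) ∧
        (∀ x : ℝ, x ≠ 0 → GamE g E (x + 1) = x * GamE g E x) ∧
        (∀ x : ℝ, GamE g E x * GamE g E (1 - x) = Real.pi / Real.sin (Real.pi * x)) ∧
        (∀ N : ℕ, 1 ≤ N → ∀ x : ℝ, 0 < x → x < 1 →
          (∏ j ∈ range N, GamE g E ((x + j) / N)) / (NE g E N ^ (1 / 2 - x) * GamE g E x) =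
            (∏ j ∈ range N, Real.Gamma ((x + j) / N)) / ((N : ℝ) ^ (1 / 2 - x) * Real.Gamma x)) ∧
        (∀ (r : ℕ) (n : Fin r → ℤ) (a : Fin r → ℚ) (d : ℕ), 1 ≤ d →
          (∀ m : ℕ, m.Coprime d → ∑ i, n i * B (m * a i) = 0) →
          open Classical in ∃ s : ℕ → ℚ, ∏ i, GamE g E (a i) ^ n i =
            (∏ p ∈ d.primeFactors.filter (· ∈ E), (g p / p) ^ (s p : ℝ)) * ∏ i, Real.Gamma (a i) ^ n i)) ∧
      -- for almost all subsets there are no other relations
      ∀ R : Set ℝ, R.Countable → ∀ᵐ ε ∂toss,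
        (∀ q : ℕ, 2 < q → ((1 + q.totient / 2 : ℕ) : Cardinal) ≤ Algebra.trdeg ℚ (IntermediateField.adjoin ℚ
          ({Real.pi} ∪ {y : ℝ | ∃ a : ℕ, 1 ≤ a ∧ a ≤ q - 1 ∧ y = GamE g (Sub A ε) ((a : ℝ) / q)}))) ∧
        (∀ q : ℕ, 2 < q → IsPrimePow q → ((1 + q.totient / 2 : ℕ) : Cardinal) ≤
          Algebra.trdeg ℚ (IntermediateField.adjoin ℚ
            ({Real.pi} ∪ {y : ℝ | ∃ a : ℕ, 1 ≤ a ∧ a ≤ q - 1 ∧ a.Coprime q ∧ y = GamE g (Sub A ε) ((a : ℝ) / q)}))) ∧
        (∀ (r t : ℕ) (a : Fin r → ℚ) (α : Fin t → Fin r → ℤ) (c : Fin t → ℝ) (d : ℕ), 1 ≤ d →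
          (∀ i, ∃ z : ℤ, (d : ℝ) * a i = z) → (∀ i, ∀ z : ℕ, (a i : ℝ) ≠ -z) →
          (∀ j k, j ≠ k → ∃ m : ℕ, m.Coprime d ∧ ∑ i, (α j i : ℝ) * B (m * a i) ≠ ∑ i, (α k i : ℝ) * B (m * a i)) →
          (∀ j, c j ∈ R) → c ≠ 0 → ∑ j, c j * ∏ i, GamE g (Sub A ε) (a i) ^ α j i ≠ 0) := by
  classical
  refine ⟨rich_primes, fun A hA hrich ω hω δ hδ => exists_thin hA hrich hω hδ, fun A g hA hrich hs => ⟨fun E hEA => ?_, fun R hR => ?_⟩⟩
  · have hE : ∀ p ∈ E, Adm g p := fun p hp => hA p (hEA hp)
    have hsE : Sparse E := by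
      refine Summable.of_nonneg_of_le (fun p => ?_) (fun p => ?_) hs
      · split_ifs
        · positivity
        · exact le_rfl
      · by_cases h : p ∈ E
        · rw [if_pos h, if_pos (hEA h)]
        · rw [if_neg h]
          split_ifs
          · positivity
          · exact le_rfl
    exact ⟨fun x => Lam_le hA hs hEA x, fun x => kummer hE hsE x, fun x => GamE_add_one g E, GamE_reflection g E,
      fun N hN x h0 h1 => GamE_mult hE hsE hN h0 h1, fun r n a d hd h => exists_rat_power hE hsE hd h⟩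
  obtain ⟨R₀, hR₀⟩ : ∃ R₀ : Subalgebra ℚ ℝ, R₀ = Algebra.adjoin ℚ (Set.range fun _ : Unit => Real.pi) := ⟨_, rfl⟩
  have hR₀c : (R₀ : Set ℝ).Countable := by
    rw [hR₀]
    have h1 : Countable (MvPolynomial Unit ℚ) := by
      rw [← Cardinal.mk_le_aleph0_iff]
      refine MvPolynomial.cardinalMk_le_max.trans ?_
      simp
    rw [Algebra.adjoin_range_eq_range_aeval, AlgHom.coe_range]
    exact Set.countable_range _
  have hG : ∀ x : ℝ, (∀ z : ℕ, x ≠ -z) → Real.Gamma x ≠ 0 := fun x hx => Real.Gamma_ne_zero hx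
  filter_upwards [ae_indep (f := g) hA hs flip_mp hrich (hR.union hR₀c)] with ε hmain
  -- independence of the columns
  have hcols : ∀ (q : ℕ) [NeZero q] (N : ℕ) (f : Fin N → ZMod q),
      (∀ n : Fin N → ℤ, (∀ t : (ZMod q)ˣ, ∑ k, n k * saw ((t : ZMod q) * f k) = 0) → n = 0) →
      AlgebraicIndependent (Algebra.adjoin ℚ (Set.range fun _ : Unit => Real.pi)) fun k =>
        GamE g (Sub A ε) (((f k).val : ℝ) / q) := by
    intro q _ N f hf
    apply algInd_of
    intro t α c hα hc hc0
    have hq0 : (0 : ℝ) < q := by exact_mod_cast NeZero.pos q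
    have hcast : ∀ k, ((((f k).val : ℚ) / q : ℚ) : ℝ) = ((f k).val : ℝ) / q := by
      intro k
      push_cast
      rfl
    have hf0 : ∀ k, f k ≠ 0 := by
      intro k hk
      have h1 := hf (Pi.single k 1) (by
        intro t
        rw [sum_eq_single k]
        · rw [hk, mul_zero, Pool.Agent.H916R2.saw_zero, mul_zero]
        · intro j _ hj
          rw [Pi.single_eq_of_ne hj, zero_mul]
        · intro h
          exact absurd (mem_univ _) h)
      have h2 := congrFun h1 k
      simp at h2
    have hpos : ∀ k, 0 < ((f k).val : ℝ) / q := by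
      intro k
      have h1 : 0 < (f k).val := Nat.pos_of_ne_zero fun h => hf0 k ((ZMod.val_eq_zero _).1 h)
      have h1' : (0 : ℝ) < ((f k).val : ℕ) := by exact_mod_cast h1
      positivity
    have h1 := hmain N t (fun k => ((f k).val : ℚ) / q) α c q (by
      intro k
      refine ⟨((f k).val : ℤ), ?_⟩
      rw [hcast]
      push_cast
      field_simp) (by
      intro k
      rw [hcast]
      exact (Real.Gamma_pos_of_pos (hpos k)).ne') (NeZero.pos q) (by
      intro j k hjk
      by_contra hcon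
      push Not at hcon
      apply hjk
      apply hα
      have h2 := hf (α j - α k) (by
        intro t
        have h3 := hcon (t : ZMod q).val (coprime_of_unit t)
        simp only [hcast, B_saw] at h3
        have h4 : ((∑ i, (α j - α k) i * saw ((t : ZMod q) * f i) : ℤ) : ℝ) = 0 := by
          push_cast [Pi.sub_apply]
          have h5 : ∀ β : Fin N → ℤ, ∑ i, (β i : ℝ) * (-(saw ((t : ZMod q) * f i) : ℝ) / (2 * q)) =
              -(∑ i, (β i : ℝ) * (saw ((t : ZMod q) * f i) : ℝ)) / (2 * q) := by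
            intro β
            rw [← sum_neg_distrib, sum_div]
            refine sum_congr rfl fun i _ => ?_
            ring
          rw [h5, h5] at h3
          simp only [sub_mul, sum_sub_distrib]
          field_simp at h3
          linarith
        exact_mod_cast h4)
      exact sub_eq_zero.1 h2) (fun j => Or.inr (by rw [hR₀]; exact hc j)) hc0
    simp only [hcast] at h1
    exact h1
  refine ⟨fun q hq => ?_, fun q hq hpp => ?_, fun r t a α c d hd ha hz hα hc hc0 => ?_⟩
  · have : NeZero q := ⟨by omega⟩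
    obtain ⟨f, hfC, hf⟩ := exists_cols hq (Set.univ : Set (ZMod q)) (fun _ _ _ => Set.mem_univ _)
      (fun χ hχ => by
        obtain ⟨a, ha⟩ := exists_SS_ne_zero χ hχ
        exact ⟨a, Set.mem_univ _, ha⟩)
    refine trdeg_ge (q := q) (hcols q _ f hf) fun k => ⟨(f k).val, ?_, ?_, rfl⟩
    · apply Nat.pos_of_ne_zero
      intro h0
      have hk := (ZMod.val_eq_zero _).1 h0
      have h1 := hf (Pi.single k 1) (by
        intro t
        rw [sum_eq_single k]
        · rw [hk, mul_zero, Pool.Agent.H916R2.saw_zero, mul_zero]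
        · intro j _ hj
          rw [Pi.single_eq_of_ne hj, zero_mul]
        · intro h
          exact absurd (mem_univ _) h)
      have h2 := congrFun h1 k
      simp at h2
    · have := ZMod.val_lt (f k)
      omega
  · have : NeZero q := ⟨by omega⟩
    obtain ⟨p, k, hp, hk, hpk⟩ := hpp
    obtain ⟨f, hfC, hf⟩ := exists_cols hq {a : ZMod q | IsUnit a} (fun u a ha => u.isUnit.mul ha)
      (fun χ hχ => ⟨1, isUnit_one, SS_one_ne_zero (Nat.prime_iff.2 hp) hpk.symm hχ⟩)
    refine trdeg_ge (q := q) (hcols q _ f hf) fun k => ⟨(f k).val, ?_, ?_, ?_, rfl⟩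
    · obtain ⟨u, hu⟩ := hfC k
      apply Nat.pos_of_ne_zero
      intro h0
      have h1 := coprime_of_unit u
      rw [hu, h0, Nat.coprime_zero_left] at h1
      omega
    · have := ZMod.val_lt (f k)
      omega
    · obtain ⟨u, hu⟩ := hfC k
      rw [← hu]
      exact coprime_of_unit u
  · exact hmain r t a α c d ha (fun i => hG _ (hz i)) hd hα (fun j => Or.inl (hc j)) hc0

end Pool.Agent.Results.MP_274814_nt.AlmostAllChangedPrimes
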